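import Mathlib
import Pool.Agent.Q220.Ani.Ray

/-!
# Poisson random rays in the planar lattice: an infinite second moment does not force percolation

For the soup of lattice rays `{x, x + e, ..., x + L e}` in the square lattice, every length law with
`P(L ≥ ℓ) ≤ C / ℓ ^ 2` has a strictly positive critical intensity. The law `P(L = ℓ) = c / ℓ ^ 3`
satisfies this, and has `E |H| ^ 2 = ∞` (and `E |H| < ∞`), where `|H| = L + 1`.

Proof. Multiscale recursion: if the annulus of scale `8 r` is crossed then either a ray of length at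
least `r` comes near it (mean number at most `C' λ`, uniformly in `r`), or two far apart annuli of
scale `r` are crossed, independently. So crossing probabilities stay bounded by a small constant when
`λ` is small, and the zero-one law excludes an infinite cluster.
-/

set_option autoImplicit false
open MeasureTheory ProbabilityTheory
open scoped ENNReal NNReal BigOperators

namespace Pool.Agent.Results.MP_04d7a1_pr.LatticeRays

/-- The nearest-neighbour graph of the square lattice. -/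
def squareLattice : SimpleGraph (ℤ × ℤ) where
  Adj a b := |a.1 - b.1| + |a.2 - b.2| = 1
  symm := ⟨fun a b h => by
    rw [abs_sub_comm b.1 a.1, abs_sub_comm b.2 a.2]
    exact h⟩
  loopless := ⟨fun a h => by simp at h⟩

/-- A set of vertices percolates if the subgraph of the square lattice it induces has an infinite
connected component. -/
def Percolates (S : Set (ℤ × ℤ)) : Prop :=
  ∃ C : (squareLattice.induce S).ConnectedComponent, C.supp.Infinite

/-- The sample space. For `ω = (N, L, e)`, the number of rays rooted at `x` is `N x`, and the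
`i`-th ray rooted at `x` has length `L (x, i)` and direction `e (x, i)`. -/
abbrev Sample : Type :=
  (ℤ × ℤ → ℕ) × ((ℤ × ℤ) × ℕ → ℕ) × ((ℤ × ℤ) × ℕ → Fin 4)

/-- The law of the model: independent Poisson numbers of mean `lam`, independent lengths with law
`m`, independent uniform directions. -/
noncomputable def rayLaw (lam : ℝ≥0) (m : PMF ℕ) : Measure Sample :=
  (Measure.infinitePi (fun _ : ℤ × ℤ => poissonMeasure lam)).prod
    ((Measure.infinitePi (fun _ : (ℤ × ℤ) × ℕ => m.toMeasure)).prod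
      (Measure.infinitePi
        (fun _ : (ℤ × ℤ) × ℕ => (PMF.uniformOfFintype (Fin 4)).toMeasure)))

/-- The four unit vectors. -/
def unitStep : Fin 4 → ℤ × ℤ := ![(1, 0), (-1, 0), (0, 1), (0, -1)]

/-- The union of all rays `{x, x + e, ..., x + L e}`. -/
def occupied (ω : Sample) : Set (ℤ × ℤ) :=
  {z | ∃ x : ℤ × ℤ, ∃ i : ℕ, i < ω.1 x ∧ ∃ j : ℕ, j ≤ ω.2.1 (x, i) ∧
    z = x + j • unitStep (ω.2.2 (x, i))}

/-- The critical intensity `inf {lam > 0 : P (the occupied set percolates) > 0}`, in `[0, ∞]`. -/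
noncomputable def lambdaC (m : PMF ℕ) : ℝ≥0∞ :=
  ⨅ lam : {lam : ℝ≥0 // 0 < lam ∧ 0 < rayLaw lam m {ω | Percolates (occupied ω)}},
    ((lam : ℝ≥0) : ℝ≥0∞)

/-- keeping one direction per ray -/
def proj (ω : (ℤ × ℤ → ℕ) × (((ℤ × ℤ) × ℕ → ℕ) × ((ℤ × ℤ) × ℕ × ℕ → Fin 4))) : Sample :=
  (ω.1, ω.2.1, fun j => ω.2.2 (j.1, j.2, 0))

theorem proj_measurable : Measurable proj := by
  unfold proj
  fun_prop

theorem poisson_eq (lam : ℝ≥0) : (poissonPMF lam).toMeasure = poissonMeasure lam := by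
  refine Measure.ext_of_singleton fun n => ?_
  rw [PMF.toMeasure_apply_singleton _ _ (MeasurableSet.singleton _), poissonMeasure_singleton,
    ← poissonPMFReal_ofReal_eq_poissonPMF]
  rfl

theorem map_proj (lam : ℝ≥0) (m : PMF ℕ) : (H592.P2 lam m).map proj = rayLaw lam m := by
  have h1 : (Measure.infinitePi (fun _ : (ℤ × ℤ) × ℕ × ℕ => H592.uS2)).map
      (fun s (j : (ℤ × ℤ) × ℕ) => s (j.1, j.2, 0))
      = Measure.infinitePi (fun _ : (ℤ × ℤ) × ℕ => H592.uS2) :=
    Measure.map_infinitePi_infinitePi_of_inj (P := fun _ : (ℤ × ℤ) × ℕ × ℕ => H592.uS2)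
      (f := fun q : (ℤ × ℤ) × ℕ => (q.1, q.2, 0)) (by
        rintro ⟨a, b⟩ ⟨a', b'⟩ h
        simp only [Prod.mk.injEq] at h ⊢
        tauto)
  unfold H592.P2 rayLaw
  have h2 : proj = Prod.map (id : (ℤ × ℤ → ℕ) → (ℤ × ℤ → ℕ))
      (Prod.map (id : ((ℤ × ℤ) × ℕ → ℕ) → ((ℤ × ℤ) × ℕ → ℕ))
        (fun (s : (ℤ × ℤ) × ℕ × ℕ → Fin 4) (j : (ℤ × ℤ) × ℕ) => s (j.1, j.2, 0))) := rfl
  rw [h2, ← Measure.map_prod_map _ _ measurable_id (by fun_prop),
    ← Measure.map_prod_map _ _ measurable_id (by fun_prop), h1, Measure.map_id, Measure.map_id]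
  simp only [poisson_eq]
  rfl

theorem mem_occupied (ω : (ℤ × ℤ → ℕ) × (((ℤ × ℤ) × ℕ → ℕ) × ((ℤ × ℤ) × ℕ × ℕ → Fin 4)))
    (a : ℤ × ℤ) :
    a ∈ occupied (proj ω) ↔ H592.phi2 a ∈ H592.occ (H592.Qs (Q220.Ani.xiG Q220.Ani.rayG) ω) := by
  have hst : ∀ (e : Fin 4) (j : ℕ), H592.phi2 (j • unitStep e)
      = fun i => (j : ℤ) * H592.stp (H592.psi2 e) i := by
    intro e j
    have h1 : unitStep e = H592.st4 e := rfl
    rw [h1, ← H592.phi2_st4]
    funext i
    fin_cases i <;> simp [H592.phi2]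
  constructor
  · rintro ⟨x, i, hi, j, hj, rfl⟩
    refine ⟨(H592.phi2 x, H592.mark Q220.Ani.rayG (x, i) ω.2), ?_, ?_⟩
    · show Q220.Ani.xiG _ _ ω = true
      rw [Q220.Ani.xiG_true_iff]
      exact ⟨i, hi, rfl⟩
    · show H592.phi2 (x + _) - H592.phi2 x ∈ H592.mark Q220.Ani.rayG (x, i) ω.2
      rw [H592.phi2_add, add_sub_cancel_left, hst]
      unfold H592.mark Q220.Ani.rayG
      rw [Finset.mem_image]
      exact ⟨j, Finset.mem_range.mpr (Nat.lt_succ_of_le hj), rfl⟩
  · rintro ⟨k, hk, ha⟩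
    have hk' : Q220.Ani.xiG Q220.Ani.rayG k ω = true := hk
    rw [Q220.Ani.xiG_true_iff] at hk'
    obtain ⟨i, hi, hmk⟩ := hk'
    rw [← hmk] at ha
    unfold H592.mark Q220.Ani.rayG at ha
    rw [Finset.mem_image] at ha
    obtain ⟨j, hj, hs⟩ := ha
    refine ⟨H592.phiInv2 k.1, i, hi, j, Nat.lt_succ_iff.mp (Finset.mem_range.mp hj), ?_⟩
    have h1 : H592.phi2 a = H592.phi2 (H592.phiInv2 k.1 +
        j • unitStep (ω.2.2 (H592.phiInv2 k.1, i, 0))) := by
      rw [H592.phi2_add, H592.phi2_phiInv2, hst, hs]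
      abel
    have h3 := congrArg H592.phiInv2 h1
    rw [H592.phiInv2_phi2, H592.phiInv2_phi2] at h3
    exact h3

theorem adj_nb (a b : ℤ × ℤ) (h : squareLattice.Adj a b) : H592.nb (H592.phi2 a) (H592.phi2 b) := by
  unfold H592.nb
  rw [Fin.sum_univ_two]
  exact h

theorem perc_of_percolates (S : Set (ℤ × ℤ)) (U : Set (H592.V 2))
    (hU : ∀ a, a ∈ S → H592.phi2 a ∈ U) (h : Percolates S) : H592.perc U := by
  obtain ⟨C, hC⟩ := h
  induction C using SimpleGraph.ConnectedComponent.ind with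
  | h v =>
    refine ⟨H592.phi2 v.1, ?_⟩
    have hinj : Function.Injective (fun z : S => H592.phi2 z.1) := by
      intro a b hab
      have := congrArg H592.phiInv2 hab
      simp only [H592.phiInv2_phi2] at this
      exact Subtype.ext this
    refine Set.Infinite.mono ?_ (hC.image hinj.injOn)
    rintro _ ⟨z, hz, rfl⟩
    have hr : (squareLattice.induce S).Reachable v z := by
      rw [SimpleGraph.ConnectedComponent.mem_supp_iff, SimpleGraph.ConnectedComponent.eq] at hz
      exact hz.symm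
    rw [SimpleGraph.reachable_iff_reflTransGen] at hr
    show H592.conn U (H592.phi2 v.1) (H592.phi2 z.1)
    clear hz
    induction hr with
    | refl => exact Relation.ReflTransGen.refl
    | tail _ h2 ih =>
      rename_i y z _
      refine Relation.ReflTransGen.tail ih ⟨hU _ y.2, hU _ z.2, ?_⟩
      exact adj_nb _ _ h2

theorem meas_mem_occupied (a : ℤ × ℤ) : MeasurableSet {ω : Sample | a ∈ occupied ω} := by
  have h1 : {ω : Sample | a ∈ occupied ω} = ⋃ x : ℤ × ℤ, ⋃ i : ℕ, ⋃ j : ℕ,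
      ({ω : Sample | i < ω.1 x} ∩ ({ω | j ≤ ω.2.1 (x, i)} ∩
        {ω | a = x + j • unitStep (ω.2.2 (x, i))})) := by
    ext ω
    simp [occupied]
  rw [h1]
  refine MeasurableSet.iUnion fun x => MeasurableSet.iUnion fun i => MeasurableSet.iUnion fun j => ?_
  refine MeasurableSet.inter ?_ (MeasurableSet.inter ?_ ?_)
  · have h : Measurable (fun ω : Sample => ω.1 x) := by fun_prop
    exact h (measurableSet_Ioi (a := i))
  · have h : Measurable (fun ω : Sample => ω.2.1 (x, i)) := by fun_prop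
    exact h (measurableSet_Ici (a := j))
  · have h : Measurable (fun ω : Sample => ω.2.2 (x, i)) := by fun_prop
    exact h (t := {e : Fin 4 | a = x + j • unitStep e}) (Set.toFinite _).measurableSet

/-- a length law with tail `O(ℓ ^ (-2))` has a positive critical intensity -/
theorem lambdaC_pos (m : PMF ℕ) (C : ℝ)
    (hT : ∀ l : ℕ, 1 ≤ l → m.toMeasure (Set.Ici l) ≤ ENNReal.ofReal (C / (l : ℝ) ^ 2)) :
    0 < lambdaC m := by
  set C' : ℝ := max C 0 with hC'
  have hC0 : 0 ≤ C' := le_max_right _ _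
  have hT' : ∀ l : ℕ, 1 ≤ l → ∑' n, (if l ≤ n then m n else 0) ≤ ENNReal.ofReal (C' / (l : ℝ) ^ 2) := by
    intro l hl
    have h1 : m.toMeasure (Set.Ici l) = ∑' n, (if l ≤ n then m n else 0) := by
      rw [PMF.toMeasure_apply _ (hs := measurableSet_Ici)]
      refine tsum_congr fun n => ?_
      simp [Set.indicator_apply]
    rw [← h1]
    refine (hT l hl).trans (ENNReal.ofReal_le_ofReal ?_)
    have : (0 : ℝ) < (l : ℝ) ^ 2 := by positivity
    exact div_le_div_of_nonneg_right (le_max_left _ _) this.le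
  obtain ⟨v, hv, hmain⟩ := Q220.Ani.upper_main (d := 2) (Q220.Ani.nuG Q220.Ani.rayG m)
    (max (4998 * C') 49)
    (fun c r hr => (Q220.Ani.bad_ray_bound m C' hC0 hT' c r hr).trans
      (ENNReal.ofReal_le_ofReal (le_max_left _ _)))
    (fun c => (Q220.Ani.base_bound m c).trans (ENNReal.ofReal_le_ofReal (le_max_right _ _)))
  have key : ∀ w : ℝ≥0, (w : ℝ) ≤ v → rayLaw w m {ω | Percolates (occupied ω)} = 0 := by
    intro w hw
    have hsub : {ω : Sample | Percolates (occupied ω)}
        ⊆ {ω | H592.perc {y : H592.V 2 | H592.phiInv2 y ∈ occupied ω}} := by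
      intro ω hω
      exact perc_of_percolates _ _ (fun a ha => ha) hω
    refine measure_mono_null hsub ?_
    have hms : MeasurableSet {ω : Sample | H592.perc {y : H592.V 2 | H592.phiInv2 y ∈ occupied ω}} :=
      H592.meas_perc _ (fun ω : Sample => {y : H592.V 2 | H592.phiInv2 y ∈ occupied ω})
        fun a => meas_mem_occupied _
    rw [← map_proj, Measure.map_apply proj_measurable hms]
    have heq : proj ⁻¹' {ω : Sample | H592.perc {y : H592.V 2 | H592.phiInv2 y ∈ occupied ω}}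
        = {ω | H592.perc (H592.occ (H592.Qs (Q220.Ani.xiG Q220.Ani.rayG) ω))} := by
      ext ω
      simp only [Set.mem_preimage, Set.mem_ofPred_eq]
      have : {y : H592.V 2 | H592.phiInv2 y ∈ occupied (proj ω)}
          = H592.occ (H592.Qs (Q220.Ani.xiG Q220.Ani.rayG) ω) := by
        ext y
        rw [Set.mem_ofPred_eq, mem_occupied, H592.phi2_phiInv2]
      rw [this]
    rw [heq]
    refine hmain _ (H592.P2 w m) _ (Q220.Ani.xiG_measurable _ Q220.Ani.rayG_measurable)
      (Q220.Ani.xiG_indep _ Q220.Ani.rayG_measurable _ m) (fun k => ?_)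
    refine (Q220.Ani.xiG_prob_le _ Q220.Ani.rayG_measurable w m k).trans ?_
    gcongr
    rw [← ENNReal.ofReal_coe_nnreal]
    exact ENNReal.ofReal_le_ofReal hw
  refine lt_of_lt_of_le (ENNReal.ofReal_pos.mpr hv) (le_iInf ?_)
  rintro ⟨w, hw0, hw⟩
  by_contra hlt
  push Not at hlt
  have hwv : (w : ℝ) ≤ v := by
    have h1 : (w : ℝ≥0∞) ≤ ENNReal.ofReal v := hlt.le
    have h2 := ENNReal.toReal_mono ENNReal.ofReal_ne_top h1
    rwa [ENNReal.toReal_ofReal hv.le, ENNReal.coe_toReal] at h2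
  rw [key w hwv] at hw
  exact lt_irrefl _ hw

/-- the weights of the example -/
noncomputable def wt (n : ℕ) : ℝ := 1 / (n : ℝ) ^ 3

theorem wt_nonneg (n : ℕ) : 0 ≤ wt n := by
  unfold wt
  positivity

theorem wt_summable : Summable wt := Real.summable_one_div_nat_pow.mpr (by norm_num : 1 < 3)

/-- There is a law of the length `L`, namely `P(L = ℓ) = c / ℓ ^ 3` on the positive integers, with
`E |H| < ∞`, `E |H| ^ 2 = ∞` (where `|H| = L + 1`) and a strictly positive critical intensity. So the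
answer to Q1 is negative. -/
theorem result :
    ∃ (m : PMF ℕ) (c : ℝ), 0 < c ∧ m 0 = 0 ∧ (∀ ℓ : ℕ, 1 ≤ ℓ → (m ℓ).toReal = c / (ℓ : ℝ) ^ 3) ∧
      ∑' ℓ : ℕ, ((ℓ + 1 : ℕ) : ℝ≥0∞) * m ℓ < ⊤ ∧
      ∑' ℓ : ℕ, ((ℓ + 1 : ℕ) : ℝ≥0∞) ^ 2 * m ℓ = ⊤ ∧
      0 < lambdaC m := by
  have hZ0 : ∑' n, ENNReal.ofReal (wt n) ≠ 0 := by
    intro h
    rw [ENNReal.tsum_eq_zero] at h
    have := h 1
    simp [wt] at this
  have hZ1 : ∑' n, ENNReal.ofReal (wt n) ≠ ⊤ := wt_summable.tsum_ofReal_ne_top
  set Z := ∑' n, ENNReal.ofReal (wt n) with hZ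
  have hZi0 : Z⁻¹ ≠ 0 := ENNReal.inv_ne_zero.mpr hZ1
  have hZi1 : Z⁻¹ ≠ ⊤ := ENNReal.inv_ne_top.mpr hZ0
  have hc0 : 0 < (Z⁻¹).toReal := ENNReal.toReal_pos hZi0 hZi1
  set m := PMF.normalize (fun n => ENNReal.ofReal (wt n)) hZ0 hZ1 with hm
  have hval : ∀ n, m n = ENNReal.ofReal (wt n) * Z⁻¹ := fun n => PMF.normalize_apply _ _ _
  refine ⟨m, (Z⁻¹).toReal, hc0, ?_, ?_, ?_, ?_, ?_⟩
  · rw [hval]
    simp [wt]
  · intro n _
    rw [hval, ENNReal.toReal_mul, ENNReal.toReal_ofReal (wt_nonneg n)]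
    unfold wt
    ring
  · simp_rw [hval]
    have h1 : ∀ n : ℕ, ((n + 1 : ℕ) : ℝ≥0∞) * (ENNReal.ofReal (wt n) * Z⁻¹)
        ≤ ENNReal.ofReal (2 * (1 / (n : ℝ) ^ 2)) * Z⁻¹ := by
      intro n
      rw [← mul_assoc, ← ENNReal.ofReal_natCast, ← ENNReal.ofReal_mul (Nat.cast_nonneg _)]
      refine mul_le_mul_left (ENNReal.ofReal_le_ofReal ?_) _
      unfold wt
      rcases Nat.eq_zero_or_pos n with h0 | h0
      · subst h0; simp
      · have hn : (1 : ℝ) ≤ n := by exact_mod_cast h0
        push_cast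
        rw [mul_one_div, mul_one_div, div_le_div_iff₀ (by positivity) (by positivity)]
        have : (0 : ℝ) < (n : ℝ) ^ 2 := by positivity
        nlinarith
    refine lt_of_le_of_lt (ENNReal.tsum_le_tsum h1) ?_
    rw [ENNReal.tsum_mul_right]
    refine ENNReal.mul_lt_top ?_ hZi1.lt_top
    exact ((Real.summable_one_div_nat_pow.mpr (by norm_num : 1 < 2)).mul_left
      2).tsum_ofReal_ne_top.lt_top
  · simp_rw [hval]
    have h1 : ∀ n : ℕ, ENNReal.ofReal (1 / (n : ℝ)) * Z⁻¹
        ≤ ((n + 1 : ℕ) : ℝ≥0∞) ^ 2 * (ENNReal.ofReal (wt n) * Z⁻¹) := by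
      intro n
      rw [← mul_assoc, ← ENNReal.ofReal_natCast, ← ENNReal.ofReal_pow (Nat.cast_nonneg _),
        ← ENNReal.ofReal_mul (by positivity)]
      refine mul_le_mul_left (ENNReal.ofReal_le_ofReal ?_) _
      unfold wt
      rcases Nat.eq_zero_or_pos n with h0 | h0
      · subst h0; simp
      · have hn : (1 : ℝ) ≤ n := by exact_mod_cast h0
        push_cast
        rw [mul_one_div, div_le_div_iff₀ (by positivity) (by positivity)]
        have : (n : ℝ) ^ 3 = (n : ℝ) ^ 2 * n := by ring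
        rw [this]
        nlinarith [mul_pos (by linarith : (0 : ℝ) < n) (by linarith : (0 : ℝ) < n)]
    rw [eq_top_iff]
    refine le_trans (le_of_eq ?_) (ENNReal.tsum_le_tsum h1)
    rw [ENNReal.tsum_mul_right]
    have h2 : ∑' n : ℕ, ENNReal.ofReal (1 / (n : ℝ)) = ⊤ := by
      by_contra hne
      refine Real.not_summable_one_div_natCast ?_
      have h3 := ENNReal.summable_toReal hne
      refine h3.congr fun n => ?_
      rw [ENNReal.toReal_ofReal]
      positivity
    rw [h2, ENNReal.top_mul hZi0]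
  · refine lambdaC_pos m (2 * (Z⁻¹).toReal) ?_
    intro l hl
    have hl0 : (0 : ℝ) < l := by exact_mod_cast hl
    have h1 : m.toMeasure (Set.Ici l) = ∑' n, (if l ≤ n then m n else 0) := by
      rw [PMF.toMeasure_apply _ (hs := measurableSet_Ici)]
      refine tsum_congr fun n => ?_
      simp [Set.indicator_apply]
    rw [h1]
    have h2 : ∀ n : ℕ, (if l ≤ n then m n else 0)
        ≤ (if n = l then ENNReal.ofReal (1 / (l : ℝ) ^ 2) * Z⁻¹ else 0) +
          ENNReal.ofReal (1 / l) * Z⁻¹ * (if l < n then ENNReal.ofReal (1 / (n : ℝ) ^ 2) else 0) := by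
      intro n
      rcases lt_trichotomy n l with h | h | h
      · rw [if_neg (by omega)]; exact zero_le
      · subst h
        rw [if_pos le_rfl, if_pos rfl, hval]
        refine le_add_right (mul_le_mul_left (ENNReal.ofReal_le_ofReal ?_) _)
        unfold wt
        have hn : (1 : ℝ) ≤ n := by exact_mod_cast hl
        refine one_div_le_one_div_of_le (by positivity) ?_
        exact pow_le_pow_right₀ hn (by norm_num)
      · rw [if_pos h.le, if_neg (by omega), if_pos h, zero_add, hval, mul_right_comm,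
          ← ENNReal.ofReal_mul (by positivity)]
        refine mul_le_mul_left (ENNReal.ofReal_le_ofReal ?_) _
        unfold wt
        have hn : (l : ℝ) ≤ n := by exact_mod_cast h.le
        have hn0 : (0 : ℝ) < n := by linarith
        rw [one_div_mul_one_div]
        refine one_div_le_one_div_of_le (by positivity) ?_
        have h5 : (0 : ℝ) < (n : ℝ) ^ 2 := by positivity
        nlinarith
    refine (ENNReal.tsum_le_tsum h2).trans ?_
    rw [ENNReal.tsum_add, tsum_ite_eq, ENNReal.tsum_mul_left]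
    refine (add_le_add_right (mul_le_mul_right (Q220.Ani.sum_inv_sq l hl) _) _).trans ?_
    have h6 : Z⁻¹ = ENNReal.ofReal (Z⁻¹).toReal := (ENNReal.ofReal_toReal hZi1).symm
    rw [h6, ENNReal.toReal_ofReal ENNReal.toReal_nonneg,
      ← ENNReal.ofReal_mul (by positivity), ← ENNReal.ofReal_mul (by positivity),
      ← ENNReal.ofReal_mul (by positivity), ← ENNReal.ofReal_add (by positivity) (by positivity)]
    refine ENNReal.ofReal_le_ofReal (le_of_eq ?_)
    field_simp
    ring

end Pool.Agent.Results.MP_04d7a1_pr.LatticeRays
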